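import Pool.Agent.Helper82.PN.St

/-!
# Project PN, module PSA: square divisors
-/

set_option autoImplicit false

noncomputable section

namespace Pool.Agent.Helper66.PN

open Finset Filter Topology
open Pool.Agent.Helper82.PN

/-- A set of numbers in one class. -/
private theorem card_class (J M : ℕ) (T : Finset ℕ) (hT : T ⊆ Icc 1 J)
    (h : ∀ a ∈ T, ∀ b ∈ T, (M : ℤ) ∣ (a : ℤ) - b) : T.card ≤ J / M + 1 := by
  have h0 : T.card ≤ (range (J / M + 1)).card := by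
    apply Finset.card_le_card_of_injOn (fun t => t / M)
    · intro t ht
      have h1 := Finset.mem_Icc.1 (hT ht)
      rw [Finset.coe_range, Set.mem_Iio]
      exact Nat.lt_succ_of_le (Nat.div_le_div_right h1.2)
    · intro a ha b hb hab
      have h1 : (a : ℤ) ≡ b [ZMOD M] := Int.modEq_iff_dvd.2 (h b hb a ha)
      have h2 : a % M = b % M := Int.natCast_modEq_iff.1 h1
      have hab' : a / M = b / M := hab
      rw [← Nat.div_add_mod a M, ← Nat.div_add_mod b M, hab', h2]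
  rwa [Finset.card_range] at h0

/-- the numbers `j` with `p ^ 2` dividing the value -/
private def Sp (m n p : ℕ) : Finset ℕ := (Icc 1 m).filter (fun j => ((p : ℤ) ^ 2) ∣ gk n (kj n j))

private theorem mem_Sp {m n p j : ℕ} (h : j ∈ Sp m n p) :
    j ∈ Icc 1 m ∧ ((p : ℤ) ^ 2) ∣ gk n (kj n j) := by
  unfold Sp at h
  exact Finset.mem_filter.1 h

private theorem kj_sub (n i j : ℕ) : ((kj n i : ℕ) : ℤ) - (kj n j : ℕ) = 30 * ((i : ℤ) - j) := by
  unfold kj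
  push_cast
  ring

private theorem cop30 {p : ℕ} (hp : p.Prime) (h7 : 7 ≤ p) : ¬ (p : ℤ) ∣ 30 := by
  intro h
  have h1 : p ∣ 30 := by exact_mod_cast h
  have h2 : p ∣ 2 * (3 * 5) := h1
  rcases (hp.dvd_mul).1 h2 with h3 | h3
  · exact absurd (Nat.le_of_dvd (by norm_num) h3) (by omega)
  · rcases (hp.dvd_mul).1 h3 with h4 | h4
    · exact absurd (Nat.le_of_dvd (by norm_num) h4) (by omega)
    · exact absurd (Nat.le_of_dvd (by norm_num) h4) (by omega)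

private theorem cop3 {p : ℕ} (h7 : 7 ≤ p) : ¬ (p : ℤ) ∣ 3 := by
  intro h
  have h1 : p ∣ 3 := by exact_mod_cast h
  exact absurd (Nat.le_of_dvd (by norm_num) h1) (by omega)

/-- two roots modulo the square -/
private theorem two_roots {p n : ℕ} {k l : ℤ} (hp : p.Prime) (h7 : 7 ≤ p) (hn : ¬ p ∣ n)
    (hk : ((p : ℤ) ^ 2) ∣ (n : ℤ) ^ 2 - n * k + k ^ 2)
    (hl : ((p : ℤ) ^ 2) ∣ (n : ℤ) ^ 2 - n * l + l ^ 2) :
    ((p : ℤ) ^ 2) ∣ k - l ∨ ((p : ℤ) ^ 2) ∣ k + l - n := by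
  have hpi := Nat.prime_iff_prime_int.1 hp
  have h3 : (p : ℤ) ^ 2 ∣ (k - l) * (k + l - n) := by
    have h2 : (k - l) * (k + l - n) =
        ((n : ℤ) ^ 2 - n * k + k ^ 2) - ((n : ℤ) ^ 2 - n * l + l ^ 2) := by
      ring
    rw [h2]
    exact dvd_sub hk hl
  by_cases ha : (p : ℤ) ∣ k - l
  · by_cases hb : (p : ℤ) ∣ k + l - n
    · exfalso
      have h4 : (p : ℤ) ∣ 2 * k - n := by
        have h5 : 2 * k - n = (k - l) + (k + l - n) := by ring
        rw [h5]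
        exact dvd_add ha hb
      have h6 : (p : ℤ) ∣ (n : ℤ) ^ 2 - n * k + k ^ 2 :=
        dvd_trans (dvd_pow_self _ two_ne_zero) hk
      have h7' : (p : ℤ) ∣ 3 * (n : ℤ) ^ 2 := by
        have h8 : 3 * (n : ℤ) ^ 2 =
            4 * ((n : ℤ) ^ 2 - n * k + k ^ 2) - (2 * k - n) * (2 * k - n) := by ring
        rw [h8]
        exact dvd_sub (Dvd.dvd.mul_left h6 _) (Dvd.dvd.mul_left h4 _)
      rcases hpi.dvd_or_dvd h7' with h9 | h9
      · exact cop3 h7 h9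
      · exact hn (by exact_mod_cast hpi.dvd_of_dvd_pow h9)
    · left
      exact ((hpi.coprime_iff_not_dvd.2 hb).pow_left).dvd_of_dvd_mul_right h3
  · right
    exact ((hpi.coprime_iff_not_dvd.2 ha).pow_left).dvd_of_dvd_mul_left h3

private theorem card_one {m n p : ℕ} (hp : p.Prime) (h7 : 7 ≤ p) (hn : ¬ p ∣ n) :
    (Sp m n p).card ≤ 2 * (m / p ^ 2 + 1) := by
  classical
  rcases (Sp m n p).eq_empty_or_nonempty with h | ⟨r, hr⟩
  · rw [h, Finset.card_empty]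
    exact Nat.zero_le _
  · obtain ⟨hr1, hr2⟩ := mem_Sp hr
    have hpi := Nat.prime_iff_prime_int.1 hp
    have hc30 : IsCoprime ((p : ℤ) ^ 2) 30 :=
      (hpi.coprime_iff_not_dvd.2 (cop30 hp h7)).pow_left
    obtain ⟨A, hA⟩ : ∃ A : Finset ℕ, A = (Sp m n p).filter
      (fun s : ℕ => ((p : ℤ) ^ 2) ∣ ((kj n r : ℕ) : ℤ) - (kj n s : ℕ)) := ⟨_, rfl⟩
    obtain ⟨B, hB⟩ : ∃ B : Finset ℕ, B = (Sp m n p).filter
      (fun s : ℕ => ((p : ℤ) ^ 2) ∣ ((kj n r : ℕ) : ℤ) + (kj n s : ℕ) - n) := ⟨_, rfl⟩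
    have hsub : Sp m n p ⊆ A ∪ B := by
      intro s hs
      obtain ⟨_, hs2⟩ := mem_Sp hs
      rw [Finset.mem_union, hA, hB, Finset.mem_filter, Finset.mem_filter]
      rcases two_roots hp h7 hn hr2 hs2 with h | h
      · exact Or.inl ⟨hs, h⟩
      · exact Or.inr ⟨hs, h⟩
    have cA : A.card ≤ m / p ^ 2 + 1 := by
      refine card_class _ _ A ?_ ?_
      · intro s hs
        rw [hA] at hs
        exact (mem_Sp (Finset.mem_filter.1 hs).1).1
      · intro u hu v hv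
        rw [hA] at hu hv
        have h1 := (Finset.mem_filter.1 hu).2
        have h2 := (Finset.mem_filter.1 hv).2
        have h3 : ((p : ℤ) ^ 2) ∣ 30 * ((u : ℤ) - v) := by
          rw [← kj_sub n u v]
          have h4 : ((kj n u : ℕ) : ℤ) - (kj n v : ℕ) = (((kj n r : ℕ) : ℤ) - (kj n v : ℕ)) -
              (((kj n r : ℕ) : ℤ) - (kj n u : ℕ)) := by ring
          rw [h4]
          exact dvd_sub h2 h1
        push_cast
        exact hc30.dvd_of_dvd_mul_left h3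
    have cB : B.card ≤ m / p ^ 2 + 1 := by
      refine card_class _ _ B ?_ ?_
      · intro s hs
        rw [hB] at hs
        exact (mem_Sp (Finset.mem_filter.1 hs).1).1
      · intro u hu v hv
        rw [hB] at hu hv
        have h1 := (Finset.mem_filter.1 hu).2
        have h2 := (Finset.mem_filter.1 hv).2
        have h3 : ((p : ℤ) ^ 2) ∣ 30 * ((u : ℤ) - v) := by
          rw [← kj_sub n u v]
          have h4 : ((kj n u : ℕ) : ℤ) - (kj n v : ℕ) = (((kj n r : ℕ) : ℤ) + (kj n u : ℕ) - n) -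
              (((kj n r : ℕ) : ℤ) + (kj n v : ℕ) - n) := by ring
          rw [h4]
          exact dvd_sub h1 h2
        push_cast
        exact hc30.dvd_of_dvd_mul_left h3
    calc (Sp m n p).card ≤ (A ∪ B).card := Finset.card_le_card hsub
      _ ≤ A.card + B.card := Finset.card_union_le _ _
      _ ≤ 2 * (m / p ^ 2 + 1) := by omega

private theorem card_two {m n p : ℕ} (hp : p.Prime) (h7 : 7 ≤ p) (hn : p ∣ n) :
    (Sp m n p).card ≤ m / p + 1 := by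
  refine card_class _ _ (Sp m n p) ?_ ?_
  · intro s hs
    exact (mem_Sp hs).1
  · intro u hu v hv
    have hpi := Nat.prime_iff_prime_int.1 hp
    have hni : (p : ℤ) ∣ (n : ℤ) := by exact_mod_cast hn
    have hx : ∀ w ∈ Sp m n p, (p : ℤ) ∣ ((kj n w : ℕ) : ℤ) := by
      intro w hw
      have h1 : (p : ℤ) ∣ gk n (kj n w) :=
        dvd_trans (dvd_pow_self _ two_ne_zero) (mem_Sp hw).2
      have h2 : (p : ℤ) ∣ ((kj n w : ℕ) : ℤ) ^ 2 := by
        have h3 : ((kj n w : ℕ) : ℤ) ^ 2 = gk n (kj n w) - (n : ℤ) * (n - (kj n w : ℕ)) := by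
          unfold gk
          ring
        rw [h3]
        exact dvd_sub h1 (Dvd.dvd.mul_right hni _)
      exact hpi.dvd_of_dvd_pow h2
    have h4 : (p : ℤ) ∣ 30 * ((u : ℤ) - v) := by
      rw [← kj_sub n u v]
      exact dvd_sub (hx u hu) (hx v hv)
    exact (hpi.coprime_iff_not_dvd.2 (cop30 hp h7)).dvd_of_dvd_mul_left h4

/-- few large primes divide `n` -/
private theorem few {a n : ℕ} (ha : 2 ≤ a) (hn1' : 1 ≤ n) (hna : n ≤ a ^ 2)
    (Q : Finset ℕ) (hQ : ∀ p ∈ Q, p.Prime ∧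
    (a : ℝ) ^ (19 / 100 : ℝ) ≤ (p : ℝ) ∧ p ∣ n) : (Q.card : ℝ) ≤ 11 := by
  have hn1 : (1 : ℝ) < (a : ℝ) := by
    have : 1 < a := by omega
    exact_mod_cast this
  have hn0 : (0 : ℝ) ≤ (a : ℝ) := by linarith
  have hd : ∏ p ∈ Q, p ∣ n := by
    apply Finset.prod_primes_dvd
    · intro p hp
      exact (hQ p hp).1.prime
    · intro p hp
      exact (hQ p hp).2.2
  have hle : ∏ p ∈ Q, p ≤ a ^ 2 := (Nat.le_of_dvd (by omega) hd).trans hna
  have h7 : ((a : ℝ) ^ (19 / 100 : ℝ)) ^ Q.card ≤ (a : ℝ) ^ (2 : ℝ) := by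
    calc ((a : ℝ) ^ (19 / 100 : ℝ)) ^ Q.card = ∏ _p ∈ Q, (a : ℝ) ^ (19 / 100 : ℝ) := by
          rw [Finset.prod_const]
      _ ≤ ∏ p ∈ Q, (p : ℝ) := by
          apply Finset.prod_le_prod
          · intro p _
            exact Real.rpow_nonneg hn0 _
          · intro p hp
            exact (hQ p hp).2.1
      _ = ((∏ p ∈ Q, p : ℕ) : ℝ) := by push_cast; rfl
      _ ≤ ((a ^ 2 : ℕ) : ℝ) := by exact_mod_cast hle
      _ = (a : ℝ) ^ (2 : ℝ) := by
          push_cast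
          rw [← Real.rpow_natCast]
          norm_num
  rw [← Real.rpow_natCast, ← Real.rpow_mul hn0, Real.rpow_le_rpow_left_iff hn1] at h7
  linarith

open Classical in
/-- PSA. -/
theorem hPSA (hR : StRTA) : StPSA := by
  refine ⟨30, by norm_num, ?_⟩
  intro a n ha han hna
  have hn1 : (1 : ℝ) ≤ (a : ℝ) := by
    have : 1 ≤ a := by omega
    exact_mod_cast this
  have hn0 : (0 : ℝ) < (a : ℝ) := by linarith
  obtain ⟨m, hm⟩ : ∃ m : ℕ, m = a / 60 := ⟨_, rfl⟩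
  have hma : (m : ℝ) ≤ (a : ℝ) := by
    have : m ≤ a := by omega
    exact_mod_cast this
  obtain ⟨z, hz⟩ : ∃ z : ℝ, z = (a : ℝ) ^ (19 / 100 : ℝ) := ⟨_, rfl⟩
  obtain ⟨y, hy⟩ : ∃ y : ℝ, y = (a : ℝ) ^ (99 / 100 : ℝ) := ⟨_, rfl⟩
  obtain ⟨x, hx⟩ : ∃ x : ℝ, x = (a : ℝ) ^ (995 / 1000 : ℝ) := ⟨_, rfl⟩
  have hz1 : 1 ≤ z := by
    rw [hz]
    exact Real.one_le_rpow hn1 (by norm_num)
  have hz0 : 0 < z := by linarith
  have hy0 : 0 ≤ y := by
    rw [hy]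
    positivity
  have hx1 : 1 ≤ x := by
    rw [hx]
    exact Real.one_le_rpow hn1 (by norm_num)
  have hyx : y ≤ x := by
    rw [hy, hx]
    exact Real.rpow_le_rpow_of_exponent_le hn1 (by norm_num)
  have hnz : (a : ℝ) / z ≤ x := by
    rw [hz, hx]
    have h1 : (a : ℝ) / (a : ℝ) ^ (19 / 100 : ℝ) = (a : ℝ) ^ (1 - 19 / 100 : ℝ) := by
      rw [Real.rpow_sub hn0, Real.rpow_one]
    rw [h1]
    exact Real.rpow_le_rpow_of_exponent_le hn1 (by norm_num)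
  obtain ⟨k, hk⟩ : ∃ k : ℕ, k = ⌈z⌉₊ - 1 := ⟨_, rfl⟩
  have hcz : 1 ≤ ⌈z⌉₊ := Nat.one_le_ceil_iff.2 hz0
  have hk1 : (z : ℝ) ≤ (k : ℝ) + 1 := by
    have h1 : k + 1 = ⌈z⌉₊ := by omega
    have h2 : ((k : ℝ) + 1) = ((⌈z⌉₊ : ℕ) : ℝ) := by
      rw [← h1]
      push_cast
      ring
    rw [h2]
    exact Nat.le_ceil z
  obtain ⟨I, hI⟩ : ∃ I : Finset ℕ, I = Ioo k (⌊y⌋₊ + 1) := ⟨_, rfl⟩
  obtain ⟨P, hP⟩ : ∃ P : Finset ℕ, P = I.filter (fun p => p.Prime ∧ 7 ≤ p) := ⟨_, rfl⟩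
  have hPz : ∀ p ∈ P, z ≤ (p : ℝ) := by
    intro p hp
    rw [hP, Finset.mem_filter, hI, Finset.mem_Ioo] at hp
    have h1 : k + 1 ≤ p := hp.1.1
    have h2 : (k : ℝ) + 1 ≤ (p : ℝ) := by exact_mod_cast h1
    linarith
  have hPp : ∀ p ∈ P, p.Prime := by
    intro p hp
    rw [hP, Finset.mem_filter] at hp
    exact hp.2.1
  have hP7 : ∀ p ∈ P, 7 ≤ p := by
    intro p hp
    rw [hP, Finset.mem_filter] at hp
    exact hp.2.2
  have hsub : ((Icc 1 (a / 60)).filter (fun j => ∃ p : ℕ, p.Prime ∧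
      (a : ℝ) ^ (19 / 100 : ℝ) ≤ (p : ℝ) ∧ (p : ℝ) ≤ (a : ℝ) ^ (99 / 100 : ℝ) ∧
      p ^ 2 ∣ vk n (kj n j))) ⊆ P.biUnion (Sp m n) := by
    intro j hj
    obtain ⟨h1, p, hp, h2, h3, h4⟩ := Finset.mem_filter.1 hj
    have hkj := kj_le n j a ha (Finset.mem_Icc.1 h1).2
    have h5 : ((p ^ 2 : ℕ) : ℤ) ∣ gk n (kj n j) :=
      (dvd_vk n (kj n j) (p ^ 2) (by omega)).1 h4
    have h6 : ((p : ℤ) ^ 2) ∣ gk n (kj n j) := by
      have h7 := h5
      push_cast at h7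
      exact h7
    have h7 : 7 ≤ p := by
      by_contra hlt
      have hp5 : p ≤ 5 := by
        by_contra h8
        have h9 : p = 6 := by omega
        rw [h9] at hp
        exact absurd hp (by norm_num)
      exact (hR n p hp).2.2.2.2 hp5 j (dvd_trans (dvd_pow_self _ two_ne_zero) h6)
    rw [Finset.mem_biUnion]
    refine ⟨p, ?_, ?_⟩
    · rw [hP, Finset.mem_filter, hI, Finset.mem_Ioo]
      rw [← hz] at h2
      rw [← hy] at h3
      refine ⟨⟨?_, ?_⟩, hp, h7⟩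
      · have h5 : ⌈z⌉₊ ≤ p := Nat.ceil_le.2 h2
        omega
      · exact Nat.lt_succ_of_le (Nat.le_floor h3)
    · unfold Sp
      rw [hm]
      exact Finset.mem_filter.2 ⟨h1, h6⟩
  have hcard : (((Icc 1 (a / 60)).filter (fun j => ∃ p : ℕ, p.Prime ∧
      (a : ℝ) ^ (19 / 100 : ℝ) ≤ (p : ℝ) ∧ (p : ℝ) ≤ (a : ℝ) ^ (99 / 100 : ℝ) ∧
      p ^ 2 ∣ vk n (kj n j))).card : ℝ) ≤ ∑ p ∈ P, ((Sp m n p).card : ℝ) := by
    have h1 := (Finset.card_le_card hsub).trans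
      (Finset.card_biUnion_le (s := P) (t := Sp m n))
    exact_mod_cast h1
  rw [← Finset.sum_filter_add_sum_filter_not P (fun p => p ∣ n)] at hcard
  have hS1 : ∑ p ∈ P.filter (fun p : ℕ => p ∣ n),
      ((Sp m n p).card : ℝ) ≤ 22 * x := by
    have h1 : ∀ p ∈ P.filter (fun p : ℕ => p ∣ n),
        ((Sp m n p).card : ℝ) ≤ 2 * x := by
      intro p hp
      obtain ⟨hp1, hp2⟩ := Finset.mem_filter.1 hp
      have h2 : ((Sp m n p).card : ℝ) ≤ ((m / p + 1 : ℕ) : ℝ) := by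
        exact_mod_cast card_two (hPp p hp1) (hP7 p hp1) hp2
      have hpz := hPz p hp1
      have h3 : (((m / p : ℕ)) : ℝ) ≤ (a : ℝ) / z := by
        calc (((m / p : ℕ)) : ℝ) ≤ (m : ℝ) / (p : ℝ) := Nat.cast_div_le
          _ ≤ (a : ℝ) / (p : ℝ) := div_le_div_of_nonneg_right hma (by linarith)
          _ ≤ (a : ℝ) / z := div_le_div_of_nonneg_left hn0.le hz0 hpz
      push_cast at h2
      linarith
    have h4 := Finset.sum_le_sum h1
    rw [Finset.sum_const, nsmul_eq_mul] at h4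
    have h5 : ((P.filter (fun p : ℕ => p ∣ n)).card : ℝ) ≤ 11 := by
      apply few (a := a) (n := n) (by omega) (by omega) hna
      intro p hp
      obtain ⟨hp1, hp2⟩ := Finset.mem_filter.1 hp
      exact ⟨hPp p hp1, by rw [← hz]; exact hPz p hp1, hp2⟩
    calc _ ≤ _ := h4
      _ ≤ 11 * (2 * x) := mul_le_mul_of_nonneg_right h5 (by linarith)
      _ = 22 * x := by ring
  have hS2 : ∑ p ∈ P.filter (fun p : ℕ => ¬ p ∣ n),
      ((Sp m n p).card : ℝ) ≤ 6 * x := by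
    have h1 : ∀ p ∈ P.filter (fun p : ℕ => ¬ p ∣ n),
        ((Sp m n p).card : ℝ) ≤ 2 * (a : ℝ) * ((p : ℝ) ^ 2)⁻¹ + 2 := by
      intro p hp
      obtain ⟨hp1, hp2⟩ := Finset.mem_filter.1 hp
      have h2 : ((Sp m n p).card : ℝ) ≤ ((2 * (m / p ^ 2 + 1) : ℕ) : ℝ) := by
        exact_mod_cast card_one (hPp p hp1) (hP7 p hp1) hp2
      have h3 : (((m / p ^ 2 : ℕ)) : ℝ) ≤ (a : ℝ) * ((p : ℝ) ^ 2)⁻¹ := by
        calc (((m / p ^ 2 : ℕ)) : ℝ) ≤ (m : ℝ) / ((p ^ 2 : ℕ) : ℝ) :=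
              Nat.cast_div_le
          _ = (m : ℝ) * ((p : ℝ) ^ 2)⁻¹ := by
              rw [div_eq_mul_inv]
              push_cast
              rfl
          _ ≤ (a : ℝ) * ((p : ℝ) ^ 2)⁻¹ := mul_le_mul_of_nonneg_right hma (by positivity)
      push_cast at h2
      linarith
    have h4 := Finset.sum_le_sum h1
    have h5 : ∑ p ∈ P.filter (fun p : ℕ => ¬ p ∣ n),
        (2 * (a : ℝ) * ((p : ℝ) ^ 2)⁻¹ + 2) ≤ ∑ p ∈ I, (2 * (a : ℝ) * ((p : ℝ) ^ 2)⁻¹ + 2) := by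
      apply Finset.sum_le_sum_of_subset_of_nonneg
      · intro p hp
        have hp1 := (Finset.mem_filter.1 hp).1
        rw [hP] at hp1
        exact (Finset.mem_filter.1 hp1).1
      · intro p _ _
        positivity
    have h6 : ∑ p ∈ I, (2 * (a : ℝ) * ((p : ℝ) ^ 2)⁻¹ + 2) =
        2 * (a : ℝ) * ∑ p ∈ I, ((p : ℝ) ^ 2)⁻¹ + 2 * (I.card : ℝ) := by
      rw [Finset.sum_add_distrib, ← Finset.mul_sum, Finset.sum_const, nsmul_eq_mul]
      ring
    have h7 : ∑ p ∈ I, ((p : ℝ) ^ 2)⁻¹ ≤ 2 / z := by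
      rw [hI]
      refine (sum_Ioo_inv_sq_le k (⌊y⌋₊ + 1)).trans ?_
      exact div_le_div_of_nonneg_left (by norm_num) hz0 hk1
    have h8 : (I.card : ℝ) ≤ y := by
      rw [hI, Nat.card_Ioo]
      have h9 : ⌊y⌋₊ + 1 - k - 1 ≤ ⌊y⌋₊ := by omega
      have h10 : ((⌊y⌋₊ + 1 - k - 1 : ℕ) : ℝ) ≤ ((⌊y⌋₊ : ℕ) : ℝ) := by exact_mod_cast h9
      exact h10.trans (Nat.floor_le hy0)
    have h11 : 2 * (a : ℝ) * ∑ p ∈ I, ((p : ℝ) ^ 2)⁻¹ ≤ 4 * x := by
      calc 2 * (a : ℝ) * ∑ p ∈ I, ((p : ℝ) ^ 2)⁻¹ ≤ 2 * (a : ℝ) * (2 / z) :=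
            mul_le_mul_of_nonneg_left h7 (by positivity)
        _ = 4 * ((a : ℝ) / z) := by ring
        _ ≤ 4 * x := by linarith
    linarith
  rw [← hx]
  linarith

end Pool.Agent.Helper66.PN
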